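import Pool.Agent.V7H51.PK.Upper

set_option autoImplicit false

/-!
There are planar graphs with correspondence packing number six: a planar graph (a stacked
triangulation) with a five-fold cover without a packing.  Over the planar graphs of degeneracy at
most three the maximum of the correspondence packing number is exactly six.
-/

namespace Pool.Agent.Results.MP_fe1b94_co.PlanarSixH51

open Pool.Agent.TH455
open Pool.Agent.H239R2.Planar (HasStraightLineDrawing)
open Pool.Agent.V7H51.PK (Degenerate)

/-- Some finite planar graph has, for every `k ≤ 5`, a `k`-fold cover without a packing; six is the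
maximum of the correspondence packing number over the finite planar graphs of degeneracy at most
three. -/
theorem result :
    (∃ (V : Type) (_ : Fintype V) (G : SimpleGraph V), HasStraightLineDrawing G ∧
      ∀ k : ℕ, 1 ≤ k → k ≤ 5 → ¬ CorrPackable G k) ∧
    IsGreatest {k : ℕ | ∃ (V : Type) (_ : Fintype V) (G : SimpleGraph V),
      HasStraightLineDrawing G ∧ Degenerate G 3 ∧ mCorrPackingNumber G = k} 6 := by
  have hn := Pool.Agent.V7H51.PK.not_packable 2160 le_rfl
  have hd := Pool.Agent.V7H51.PK.T_drawing 2160
  have hdeg := Pool.Agent.V7H51.PK.T_degenerate 2160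
  refine ⟨⟨_, inferInstance, _, hd, hn⟩, ⟨_, inferInstance, _, hd, hdeg, ?_⟩, ?_⟩
  · have hp := Pool.Agent.V7H51.PK.packable_of_degenerate _ 3 hdeg
    apply le_antisymm
    · exact Nat.sInf_le ⟨by norm_num, hp⟩
    · refine le_csInf ⟨6, by norm_num, hp⟩ ?_
      rintro k ⟨h1, h2⟩
      by_contra hc
      exact hn k h1 (by omega) h2
  · rintro k ⟨V, _, G, _, h2, rfl⟩
    exact Nat.sInf_le ⟨by norm_num, Pool.Agent.V7H51.PK.packable_of_degenerate G 3 h2⟩

end Pool.Agent.Results.MP_fe1b94_co.PlanarSixH51
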